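import Mathlib
import Pool.Agent.X56.ParentTree

/-!
# Exponential domination in trees of bounded degree

There are arbitrarily large trees `T` of maximum degree at most `6` with
`γ_e(T)^8 ≤ n(T)^7`. Hence `γ_e(T) = Ω(n / log n)` fails for trees of bounded degree.
-/

set_option autoImplicit false

namespace Pool.Agent.Results.MP_75fda7_co.FiveAryTrees

open Pool.Agent.X56

/-- A walk from `u` to `v` is admissible for `S` when it is a path, exactly one endvertex lies in
`S` and no internal vertex lies in `S`. -/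
def Admissible {V : Type*} [DecidableEq V] {G : SimpleGraph V} (S : Finset V) {u v : V}
    (p : G.Walk u v) : Prop :=
  p.IsPath ∧ (({u, v} : Finset V) ∩ S).card = 1 ∧ ∀ x ∈ p.support, x ≠ u → x ≠ v → x ∉ S

/-- The least length of an admissible path from `u` to `v` (`⊤` if there is none). -/
noncomputable def sDist {V : Type*} [DecidableEq V] (G : SimpleGraph V) (S : Finset V)
    (u v : V) : ℕ∞ :=
  ⨅ p : {p : G.Walk u v // Admissible S p}, (p.1.length : ℕ∞)

/-- `(1/2)^(d-1)` for a distance `d`, and `0` if `d` is infinite. -/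
noncomputable def halfPow (d : ℕ∞) : ℝ :=
  if d = ⊤ then 0 else 2 * (1 / 2 : ℝ) ^ d.toNat

/-- The weight of `u`. -/
noncomputable def weight {V : Type*} [DecidableEq V] (G : SimpleGraph V) (S : Finset V)
    (u : V) : ℝ :=
  ∑ v ∈ S, halfPow (sDist G S u v)

/-- `S` is an exponential dominating set. -/
def IsExpDominating {V : Type*} [DecidableEq V] (G : SimpleGraph V) (S : Finset V) : Prop :=
  ∀ u, 1 ≤ weight G S u

/-- The exponential domination number. -/
noncomputable def expDomNum {V : Type*} [DecidableEq V] (G : SimpleGraph V) : ℕ :=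
  sInf {m | ∃ S : Finset V, IsExpDominating G S ∧ S.card = m}

lemma halfPow_nonneg (d : ℕ∞) : 0 ≤ halfPow d := by
  unfold halfPow
  split_ifs
  · exact le_rfl
  · positivity

lemma halfPow_ge {d : ℕ∞} {k : ℕ} (h : d ≤ k) : 2 * (1 / 2 : ℝ) ^ k ≤ halfPow d := by
  have hd : d ≠ ⊤ := fun h' => by rw [h'] at h; exact absurd h (by simp)
  unfold halfPow
  rw [if_neg hd]
  have hk : d.toNat ≤ k := ENat.toNat_le_of_le_natCast h
  have := pow_le_pow_of_le_one (by norm_num : (0 : ℝ) ≤ 1 / 2) (by norm_num) hk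
  linarith

/-- The order of the complete 5-ary tree of depth `k`. -/
def N : ℕ → ℕ
  | 0 => 1
  | k + 1 => 5 * N k + 1

lemma N_pos (k : ℕ) : 0 < N k := by
  cases k <;> simp [N]

lemma N_ge (k : ℕ) : 5 ^ k ≤ N k := by
  induction k with
  | zero => simp [N]
  | succ k ih => rw [pow_succ, N]; omega

lemma N_mono {j k : ℕ} (h : j ≤ k) : N j ≤ N k := by
  induction h with
  | refl => exact le_rfl
  | step _ ih => rw [N]; omega

/-- The root. -/
def root (k : ℕ) : Fin (N k) := ⟨0, N_pos k⟩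

/-- The parent of the vertex `v` is `(v - 1) / 5`. -/
def par (k : ℕ) (v : Fin (N k)) : Fin (N k) := ⟨(v.val - 1) / 5, by omega⟩

lemma par_lt (k : ℕ) (v : Fin (N k)) (hv : v ≠ root k) : (par k v).val < v.val := by
  have : v.val ≠ 0 := fun h => hv (Fin.ext h)
  show (v.val - 1) / 5 < v.val
  omega

/-- The complete 5-ary tree of depth `k`. -/
def tree (k : ℕ) : SimpleGraph (Fin (N k)) :=
  parentGraph (root k) (par k) (fun v => v.val) (par_lt k)

lemma tree_adj {k : ℕ} {u v : Fin (N k)} :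
    (tree k).Adj u v ↔ (u.val ≠ 0 ∧ (u.val - 1) / 5 = v.val) ∨
      (v.val ≠ 0 ∧ (v.val - 1) / 5 = u.val) := by
  unfold tree
  rw [parentGraph_adj]
  simp only [ne_eq, Fin.ext_iff, root, par]

instance (k : ℕ) : DecidableRel (tree k).Adj := fun _ _ => decidable_of_iff' _ tree_adj

lemma walk_root (K : ℕ) : ∀ k, k ≤ K → ∀ u : Fin (N K), u.val < N k →
    ∃ p : (tree K).Walk u (root K), p.length ≤ k := by
  intro k
  induction k with
  | zero =>
    intro _ u hu
    have : u = root K := Fin.ext (by simpa [N, root] using hu)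
    subst this
    exact ⟨SimpleGraph.Walk.nil, by simp⟩
  | succ k ih =>
    intro hk u hu
    by_cases h0 : u = root K
    · subst h0
      exact ⟨SimpleGraph.Walk.nil, by simp⟩
    · obtain ⟨p, hp⟩ := ih (by omega) (par K u) (by
        show (u.val - 1) / 5 < N k
        rw [N] at hu
        have := N_pos k
        omega)
      have hadj : (tree K).Adj u (par K u) := parentGraph_adj_par h0
      exact ⟨SimpleGraph.Walk.cons hadj p, by simp [hp]⟩

lemma dist_le (K : ℕ) (u v : Fin (N K)) : (tree K).dist u v ≤ 2 * K := by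
  obtain ⟨p, hp⟩ := walk_root K K le_rfl u u.2
  obtain ⟨q, hq⟩ := walk_root K K le_rfl v v.2
  refine (SimpleGraph.dist_le (p.append q.reverse)).trans ?_
  simp only [SimpleGraph.Walk.length_append, SimpleGraph.Walk.length_reverse]
  omega

/-- The set: the first `4^(k+1)` leaves of the tree of depth `k + 1`. -/
def S (k : ℕ) : Finset (Fin (N (k + 1))) :=
  Finset.univ.filter (fun v => N k ≤ v.val ∧ v.val < N k + 4 ^ (k + 1))

lemma leaf_nbr {k : ℕ} {x y : Fin (N (k + 1))} (hx : x ∈ S k) (h : (tree (k + 1)).Adj x y) :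
    y.val = (x.val - 1) / 5 := by
  have hx' : N k ≤ x.val := by
    simp only [S, Finset.mem_filter] at hx
    exact hx.2.1
  rw [tree_adj] at h
  rcases h with h | h
  · exact h.2.symm
  · exfalso
    have h1 := y.2
    have h2 : y.val < 5 * N k + 1 := h1
    omega

lemma S_card (k : ℕ) : (S k).card = 4 ^ (k + 1) := by
  have h1 : N k + 4 ^ (k + 1) ≤ N (k + 1) := by
    have h2 := N_ge k
    have h3 : 4 ^ k ≤ 5 ^ k := Nat.pow_le_pow_left (by norm_num) k
    rw [N, pow_succ]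
    omega
  have : (S k).map ⟨Fin.val, Fin.val_injective⟩ = Finset.Ico (N k) (N k + 4 ^ (k + 1)) := by
    ext x
    simp only [S, Finset.mem_map, Finset.mem_filter, Finset.mem_univ, true_and,
      Function.Embedding.coeFn_mk, Finset.mem_Ico]
    constructor
    · rintro ⟨a, ha, rfl⟩
      exact ha
    · intro hx
      exact ⟨⟨x, by omega⟩, hx, rfl⟩
  rw [← Finset.card_map, this, Nat.card_Ico, Nat.add_sub_cancel_left]

lemma sDist_le (k : ℕ) (u v : Fin (N (k + 1))) (hu : u ∉ S k) (hv : v ∈ S k) :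
    sDist (tree (k + 1)) (S k) u v ≤ ((2 * (k + 1) : ℕ) : ℕ∞) := by
  have hconn : (tree (k + 1)).Connected := parentGraph_connected
  obtain ⟨p, hp, hlen⟩ := hconn.exists_path_of_dist u v
  have hadm : Admissible (S k) p := by
    refine ⟨hp, ?_, ?_⟩
    · have : (({u, v} : Finset (Fin (N (k + 1)))) ∩ S k) = {v} := by
        ext x
        simp only [Finset.mem_inter, Finset.mem_insert, Finset.mem_singleton]
        constructor
        · rintro ⟨h | h, hx⟩
          · rw [h] at hx; exact absurd hx hu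
          · exact h
        · rintro rfl
          exact ⟨Or.inr rfl, hv⟩
      rw [this, Finset.card_singleton]
    · intro x hx hxu hxv hxS
      obtain ⟨y, z, hyz, hy, hz⟩ := inner_two_nbrs p hp hx hxu hxv
      exact hyz (Fin.ext ((leaf_nbr hxS hy).trans (leaf_nbr hxS hz).symm))
  have h1 : sDist (tree (k + 1)) (S k) u v ≤ (p.length : ℕ∞) :=
    iInf_le (fun p : {p : (tree (k + 1)).Walk u v // Admissible (S k) p} =>
      (p.1.length : ℕ∞)) ⟨p, hadm⟩
  refine h1.trans ?_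
  rw [hlen]
  exact_mod_cast dist_le (k + 1) u v

lemma sDist_self {V : Type*} [DecidableEq V] (G : SimpleGraph V) (S : Finset V) (u : V)
    (hu : u ∈ S) : sDist G S u u ≤ ((0 : ℕ) : ℕ∞) := by
  have hadm : Admissible S (SimpleGraph.Walk.nil : G.Walk u u) := by
    refine ⟨SimpleGraph.Walk.IsPath.nil, ?_, ?_⟩
    · simp [hu]
    · intro x hx h _
      simp at hx
      exact absurd hx h
  exact iInf_le (fun p : {p : G.Walk u u // Admissible S p} =>
      (p.1.length : ℕ∞)) ⟨_, hadm⟩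

lemma S_exp (k : ℕ) : IsExpDominating (tree (k + 1)) (S k) := by
  intro u
  unfold weight
  by_cases hu : u ∈ S k
  · have h1 : halfPow (sDist (tree (k + 1)) (S k) u u) ≤
        ∑ v ∈ S k, halfPow (sDist (tree (k + 1)) (S k) u v) :=
      Finset.single_le_sum (f := fun v => halfPow (sDist (tree (k + 1)) (S k) u v))
        (fun v _ => halfPow_nonneg _) hu
    have h2 := halfPow_ge (sDist_self (tree (k + 1)) (S k) u hu)
    rw [pow_zero] at h2
    linarith
  · have h1 : (S k).card • (2 * (1 / 2 : ℝ) ^ (2 * (k + 1))) ≤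
        ∑ v ∈ S k, halfPow (sDist (tree (k + 1)) (S k) u v) := by
      apply Finset.card_nsmul_le_sum
      intro v hv
      exact halfPow_ge (sDist_le k u v hu hv)
    rw [S_card, nsmul_eq_mul] at h1
    refine le_trans ?_ h1
    rw [pow_mul]
    push_cast
    have : (4 : ℝ) ^ (k + 1) * (2 * ((1 / 2) ^ 2) ^ (k + 1)) = 2 := by
      rw [mul_comm 2, ← mul_assoc, ← mul_pow]
      norm_num
    rw [this]
    norm_num

lemma expDomNum_le (k : ℕ) : expDomNum (tree (k + 1)) ≤ 4 ^ (k + 1) :=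
  Nat.sInf_le ⟨S k, S_exp k, S_card k⟩

lemma degree_le (k : ℕ) (v : Fin (N k)) : (tree k).degree v ≤ 6 := by
  classical
  rw [← SimpleGraph.card_neighborFinset_eq_degree]
  have hsub : ((tree k).neighborFinset v).map ⟨Fin.val, Fin.val_injective⟩ ⊆
      insert ((v.val - 1) / 5) (Finset.Icc (5 * v.val + 1) (5 * v.val + 5)) := by
    intro x hx
    simp only [Finset.mem_map, SimpleGraph.mem_neighborFinset, Function.Embedding.coeFn_mk] at hx
    obtain ⟨w, hw, rfl⟩ := hx
    rw [tree_adj] at hw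
    rw [Finset.mem_insert, Finset.mem_Icc]
    omega
  have h1 := Finset.card_le_card hsub
  rw [Finset.card_map] at h1
  refine h1.trans ((Finset.card_insert_le _ _).trans ?_)
  rw [Nat.card_Icc]
  omega

/-- There are arbitrarily large trees `T` of maximum degree at most `6` with
`γ_e(T)^8 ≤ n(T)^7`. -/
theorem power_saving (m : ℕ) : ∃ (n : ℕ) (T : SimpleGraph (Fin n)) (_ : DecidableRel T.Adj),
    m ≤ n ∧ T.IsTree ∧ (∀ v, T.degree v ≤ 6) ∧ (expDomNum T) ^ 8 ≤ n ^ 7 := by
  refine ⟨N (m + 1), tree (m + 1), inferInstance, ?_, parentGraph_isTree, degree_le _, ?_⟩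
  · have h1 := N_ge (m + 1)
    have h2 : m + 1 < 5 ^ (m + 1) := Nat.lt_pow_self (by norm_num)
    omega
  · calc (expDomNum (tree (m + 1))) ^ 8 ≤ (4 ^ (m + 1)) ^ 8 :=
        Nat.pow_le_pow_left (expDomNum_le m) 8
      _ = (4 ^ 8) ^ (m + 1) := by rw [← pow_mul, ← pow_mul, mul_comm]
      _ ≤ (5 ^ 7) ^ (m + 1) := Nat.pow_le_pow_left (by norm_num) _
      _ = (5 ^ (m + 1)) ^ 7 := by rw [← pow_mul, ← pow_mul, mul_comm]
      _ ≤ (N (m + 1)) ^ 7 := Nat.pow_le_pow_left (N_ge _) 7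

/-- Main result. First, there are arbitrarily large trees of maximum degree at most `6` with
`γ_e(T) ≤ n(T)^(7/8)`. Second, for every `c > 0` there is a tree of maximum degree at most `6`
with `n ≥ 2` vertices and `γ_e(T) < c n / log n`. -/
theorem result :
    (∀ m : ℕ, ∃ (n : ℕ) (T : SimpleGraph (Fin n)) (_ : DecidableRel T.Adj),
      m ≤ n ∧ T.IsTree ∧ (∀ v, T.degree v ≤ 6) ∧ (expDomNum T) ^ 8 ≤ n ^ 7) ∧
    (∀ c : ℝ, 0 < c → ∃ (n : ℕ) (T : SimpleGraph (Fin n)) (_ : DecidableRel T.Adj),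
      2 ≤ n ∧ T.IsTree ∧ (∀ v, T.degree v ≤ 6) ∧
      (expDomNum T : ℝ) < c * (n / Real.log n)) := by
  refine ⟨power_saving, ?_⟩
  intro c hc
  obtain ⟨m, hm⟩ := exists_nat_gt ((16 / c) ^ 16)
  obtain ⟨n, T, hdec, hmn, hT, hdeg, hpow⟩ := power_saving (max m 2)
  refine ⟨n, T, hdec, by omega, hT, hdeg, ?_⟩
  have hn2 : (2 : ℝ) ≤ n := by exact_mod_cast (show 2 ≤ n by omega)
  have hn0 : (0 : ℝ) < n := by linarith
  have hlogpos : 0 < Real.log n := Real.log_pos (by linarith)
  have hmn' : (m : ℝ) ≤ n := by exact_mod_cast (show m ≤ n by omega)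
  rw [← mul_div_assoc, lt_div_iff₀ hlogpos]
  -- `log n ≤ 16 n^(1/16)`
  have hlog : Real.log n ≤ 16 * (n : ℝ) ^ ((1 : ℝ) / 16) := by
    have := Real.log_le_rpow_div hn0.le (show (0 : ℝ) < 1 / 16 by norm_num)
    calc Real.log n ≤ (n : ℝ) ^ ((1 : ℝ) / 16) / (1 / 16) := this
      _ = 16 * (n : ℝ) ^ ((1 : ℝ) / 16) := by ring
  -- `γ_e ≤ n^(7/8)`
  have hg : (expDomNum T : ℝ) ≤ (n : ℝ) ^ ((7 : ℝ) / 8) := by
    have h1 : ((expDomNum T : ℝ)) ^ (8 : ℕ) ≤ (n : ℝ) ^ (7 : ℕ) := by exact_mod_cast hpow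
    have h2 : ((n : ℝ) ^ ((7 : ℝ) / 8)) ^ (8 : ℕ) = (n : ℝ) ^ (7 : ℕ) := by
      rw [← Real.rpow_natCast, ← Real.rpow_mul hn0.le, ← Real.rpow_natCast]
      norm_num
    rw [← h2] at h1
    exact le_of_pow_le_pow_left₀ (by norm_num) (by positivity) h1
  -- `16 < c n^(1/16)`
  have hc16 : 16 < c * (n : ℝ) ^ ((1 : ℝ) / 16) := by
    have h1 : (16 / c) ^ 16 < (n : ℝ) := lt_of_lt_of_le hm hmn'
    have h2 : (n : ℝ) = ((n : ℝ) ^ ((1 : ℝ) / 16)) ^ 16 := by
      rw [← Real.rpow_natCast, ← Real.rpow_mul hn0.le]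
      norm_num
    rw [h2] at h1
    have h3 := lt_of_pow_lt_pow_left₀ 16 (by positivity) h1
    rw [div_lt_iff₀ hc] at h3
    linarith
  have hpos1 : 0 < (n : ℝ) ^ ((7 : ℝ) / 8) := by positivity
  have hpos2 : 0 < (n : ℝ) ^ ((1 : ℝ) / 16) := by positivity
  have hsplit : (n : ℝ) = (n : ℝ) ^ ((7 : ℝ) / 8) * ((n : ℝ) ^ ((1 : ℝ) / 16) *
      (n : ℝ) ^ ((1 : ℝ) / 16)) := by
    rw [← Real.rpow_add hn0, ← Real.rpow_add hn0]
    norm_num
  calc (expDomNum T : ℝ) * Real.log n
      ≤ (n : ℝ) ^ ((7 : ℝ) / 8) * (16 * (n : ℝ) ^ ((1 : ℝ) / 16)) :=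
        mul_le_mul hg hlog hlogpos.le hpos1.le
    _ < (n : ℝ) ^ ((7 : ℝ) / 8) * ((c * (n : ℝ) ^ ((1 : ℝ) / 16)) *
        (n : ℝ) ^ ((1 : ℝ) / 16)) := by
        apply mul_lt_mul_of_pos_left _ hpos1
        exact mul_lt_mul_of_pos_right hc16 hpos2
    _ = c * ((n : ℝ) ^ ((7 : ℝ) / 8) * ((n : ℝ) ^ ((1 : ℝ) / 16) *
        (n : ℝ) ^ ((1 : ℝ) / 16))) := by ring
    _ = c * (n : ℝ) := by rw [← hsplit]

end Pool.Agent.Results.MP_75fda7_co.FiveAryTrees
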